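import Mathlib

/-!
# MP_0ee9ff_an: for a normal Carleman operator the transposed kernel is again Carleman

For a normal Carleman operator `N` on `L²(a,b)` with kernel `ν` we show that, for almost every `y`,
`∫ |ν(x,y)|² dx = ∫ |ν(y,x)|² dx < ∞`.  The proof compares Hilbert–Schmidt norms: for a
measurable set `F`, normality gives `‖N 1_F‖_HS = ‖N* 1_F‖_HS = ‖1_F N‖_HS`, and both sides can be
computed with the kernel, by Parseval's identity in the second variable.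
-/

set_option autoImplicit false

open MeasureTheory ENNReal ContinuousLinearMap
open scoped InnerProductSpace

namespace Pool.Agent.Results.MP_0ee9ff_an.NoSuchOperator

/-- The open interval `(a,b)` with possibly infinite endpoints, as a set of reals. -/
def ival (a b : EReal) : Set ℝ := {x | a < (x : EReal) ∧ (x : EReal) < b}

/-- Lebesgue measure on `(a,b)`. -/
noncomputable def lebI (a b : EReal) : Measure ℝ := volume.restrict (ival a b)

/-- The extended real number `∫ |g|² dμ`. -/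
noncomputable def sqInt (μ : Measure ℝ) (g : ℝ → ℂ) : ℝ≥0∞ := ∫⁻ x, ‖g x‖ₑ ^ 2 ∂μ

/-- `ν` is measurable and square integrable in its second variable, for almost every value of the
first variable. -/
def CarlemanKernel (μ : Measure ℝ) (ν : ℝ → ℝ → ℂ) : Prop :=
  AEStronglyMeasurable (Function.uncurry ν) (μ.prod μ) ∧ ∀ᵐ x ∂μ, sqInt μ (fun y => ν x y) < ∞

/-- The map `N` on `L²(μ)` is given by the kernel `ν`. -/
def ActsBy (μ : Measure ℝ) (N : Lp ℂ 2 μ → Lp ℂ 2 μ) (ν : ℝ → ℝ → ℂ) : Prop :=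
  ∀ f : Lp ℂ 2 μ, ∀ᵐ x ∂μ, N f x = ∫ y, ν x y * f y ∂μ

/-- The bounded operator `N` on a Hilbert space is normal. -/
def IsNormalOp {H : Type} [NormedAddCommGroup H] [InnerProductSpace ℂ H] [CompleteSpace H]
    (N : H →L[ℂ] H) : Prop :=
  N * adjoint N = adjoint N * N

/-- The bounded operators on `L²(μ)`. -/
abbrev BOp (μ : Measure ℝ) : Type := Lp ℂ 2 μ →L[ℂ] Lp ℂ 2 μ

section general

universe u

variable {X : Type u} [MeasurableSpace X] {μ : Measure X}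

/-- cut-off of an `L²` function to a measurable set -/
noncomputable def cut {F : Set X} (hF : MeasurableSet F) (f : Lp ℂ 2 μ) : Lp ℂ 2 μ :=
  ((Lp.memLp f).indicator hF).toLp (F.indicator f)

lemma cut_coe {F : Set X} (hF : MeasurableSet F) (f : Lp ℂ 2 μ) :
    (cut hF f : X → ℂ) =ᵐ[μ] F.indicator f := MemLp.coeFn_toLp _

lemma inner_cut {F : Set X} (hF : MeasurableSet F) (f g : Lp ℂ 2 μ) :
    ⟪cut hF f, g⟫_ℂ = ⟪f, cut hF g⟫_ℂ := by
  rw [L2.inner_def, L2.inner_def]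
  apply integral_congr_ae
  filter_upwards [cut_coe hF f, cut_coe hF g] with x h1 h2
  rw [h1, h2]
  by_cases hx : x ∈ F <;> simp [Set.indicator, hx]

lemma enorm_sq_eq (f : Lp ℂ 2 μ) : ‖f‖ₑ ^ 2 = ∫⁻ x, ‖f x‖ₑ ^ 2 ∂μ := by
  rw [Lp.enorm_def, eLpNorm_eq_lintegral_rpow_enorm_toReal (by simp) (by simp)]
  simp only [ENNReal.toReal_ofNat, one_div]
  rw [← ENNReal.rpow_natCast, ← ENNReal.rpow_mul]
  norm_num

lemma parseval {ι : Type*} {H : Type*} [NormedAddCommGroup H] [InnerProductSpace ℂ H]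
    (b : HilbertBasis ι ℂ H) (x : H) : ∑' i, ‖⟪b i, x⟫_ℂ‖ₑ ^ 2 = ‖x‖ₑ ^ 2 := by
  have h := b.hasSum_inner_mul_inner x x
  have h2 : HasSum (fun i => ‖⟪b i, x⟫_ℂ‖ ^ 2) (‖x‖ ^ 2) := by
    have h3 := (Complex.reCLM.hasSum h)
    have e1 : Complex.reCLM ⟪x, x⟫_ℂ = ‖x‖ ^ 2 := by
      rw [inner_self_eq_norm_sq_to_K]
      simp only [Complex.reCLM_apply]
      norm_cast
    rw [e1] at h3
    convert h3 using 1
    funext i
    have : ⟪x, b i⟫_ℂ * ⟪b i, x⟫_ℂ = ((‖⟪b i, x⟫_ℂ‖ ^ 2 : ℝ) : ℂ) := by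
      rw [← inner_conj_symm x (b i), mul_comm, Complex.mul_conj]
      rw [Complex.normSq_eq_norm_sq]
    simp only [Function.comp, Complex.reCLM_apply, this, Complex.ofReal_re]
  have h4 := ENNReal.ofReal_tsum_of_nonneg (fun i => by positivity) h2.summable
  rw [h2.tsum_eq] at h4
  have key : ∀ r : ℝ, 0 ≤ r → ENNReal.ofReal (r ^ 2) = ENNReal.ofReal r ^ 2 := fun r hr =>
    ENNReal.ofReal_pow hr 2
  rw [key _ (norm_nonneg _)] at h4
  simp only [key _ (norm_nonneg _), ofReal_norm] at h4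
  exact h4.symm

/-- Hilbert–Schmidt symmetry for normal operators. -/
lemma hs_symm (N : Lp ℂ 2 μ →L[ℂ] Lp ℂ 2 μ)
    (hn : N ∘L adjoint N = adjoint N ∘L N) {ι : Type*} (b : HilbertBasis ι ℂ (Lp ℂ 2 μ))
    {F : Set X} (hF : MeasurableSet F) :
    ∑' i, ‖N (cut hF (b i))‖ₑ ^ 2 = ∑' i, ‖cut hF (N (b i))‖ₑ ^ 2 := by
  have hnorm : ∀ f, ‖N f‖ₑ = ‖adjoint N f‖ₑ := by
    intro f
    have h1 : ‖N f‖ ^ 2 = ‖adjoint N f‖ ^ 2 := by
      have e1 : ((‖N f‖ ^ 2 : ℝ) : ℂ) = ⟪N f, N f⟫_ℂ := by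
        rw [inner_self_eq_norm_sq_to_K]; norm_cast
      have e2 : ((‖adjoint N f‖ ^ 2 : ℝ) : ℂ) = ⟪adjoint N f, adjoint N f⟫_ℂ := by
        rw [inner_self_eq_norm_sq_to_K]; norm_cast
      have e3 : ⟪N f, N f⟫_ℂ = ⟪adjoint N f, adjoint N f⟫_ℂ := by
        rw [← adjoint_inner_right N f (N f), adjoint_inner_left N (adjoint N f) f]
        have := congrArg (fun T => T f) hn
        simp only [ContinuousLinearMap.comp_apply] at this
        rw [this]
      have : ((‖N f‖ ^ 2 : ℝ) : ℂ) = ((‖adjoint N f‖ ^ 2 : ℝ) : ℂ) := by rw [e1, e2, e3]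
      exact_mod_cast this
    have h2 : ‖N f‖ = ‖adjoint N f‖ := by
      have := (sq_eq_sq₀ (norm_nonneg _) (norm_nonneg _)).1 h1
      exact this
    rw [← ofReal_norm, ← ofReal_norm, h2]
  calc ∑' i, ‖N (cut hF (b i))‖ₑ ^ 2
      = ∑' i, ∑' j, ‖⟪b j, adjoint N (cut hF (b i))⟫_ℂ‖ₑ ^ 2 := by
        refine tsum_congr fun i => ?_
        rw [hnorm, parseval]
    _ = ∑' j, ∑' i, ‖⟪b j, adjoint N (cut hF (b i))⟫_ℂ‖ₑ ^ 2 := ENNReal.tsum_comm
    _ = ∑' j, ∑' i, ‖⟪b i, cut hF (N (b j))⟫_ℂ‖ₑ ^ 2 := by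
        refine tsum_congr fun j => tsum_congr fun i => ?_
        rw [adjoint_inner_right, ← inner_cut, ← inner_conj_symm]
        rw [← ofReal_norm, ← ofReal_norm, RCLike.norm_conj]
    _ = ∑' i, ‖cut hF (N (b i))‖ₑ ^ 2 := by
        refine tsum_congr fun j => ?_
        rw [parseval]

lemma countable_basis [SFinite μ] [MeasurableSpace.CountablyGenerated X] :
    ∃ (ι : Type u) (_ : Countable ι), Nonempty (HilbertBasis ι ℂ (Lp ℂ 2 μ)) := by
  have : Fact ((2 : ℝ≥0∞) ≠ ∞) := ⟨by simp⟩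
  have : SecondCountableTopology (Lp ℂ 2 μ) := inferInstance
  have : TopologicalSpace.SeparableSpace (Lp ℂ 2 μ) := inferInstance
  obtain ⟨w, b, hb⟩ := exists_hilbertBasis ℂ (Lp ℂ 2 μ)
  refine ⟨w, ?_, ⟨b⟩⟩
  have hpw : Pairwise (Function.onFun Disjoint fun i : w => Metric.ball (b i) (1 / 2 : ℝ)) := by
    intro i j hij
    apply Metric.ball_disjoint_ball
    have hd : dist (b i) (b j) ^ 2 = 2 := by
      rw [dist_eq_norm, @norm_sub_sq ℂ]
      rw [b.orthonormal.1 i, b.orthonormal.1 j, b.orthonormal.2 hij]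
      norm_num
    have : (1 : ℝ) ≤ dist (b i) (b j) := by
      nlinarith [dist_nonneg (x := b i) (y := b j)]
    linarith
  exact hpw.countable_of_isOpen_disjoint (fun i => Metric.isOpen_ball)
    (fun i => ⟨b i, Metric.mem_ball_self (by norm_num)⟩)

variable [SigmaFinite μ] [MeasurableSpace.CountablyGenerated X]

theorem transposed_kernel (N : Lp ℂ 2 μ →L[ℂ] Lp ℂ 2 μ) (ν : X → X → ℂ)
    (hmeas : AEStronglyMeasurable (Function.uncurry ν) (μ.prod μ))
    (hsq : ∀ᵐ x ∂μ, ∫⁻ y, ‖ν x y‖ₑ ^ 2 ∂μ < ∞)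
    (hact : ∀ f : Lp ℂ 2 μ, ∀ᵐ x ∂μ, N f x = ∫ y, ν x y * f y ∂μ)
    (hn : N ∘L adjoint N = adjoint N ∘L N) :
    ∀ᵐ y ∂μ, ∫⁻ x, ‖ν x y‖ₑ ^ 2 ∂μ = ∫⁻ x, ‖ν y x‖ₑ ^ 2 ∂μ := by
  obtain ⟨ι, hι, ⟨b⟩⟩ := countable_basis (μ := μ)
  have hm2 : AEMeasurable (Function.uncurry fun x y => ‖ν x y‖ₑ ^ 2) (μ.prod μ) :=
    hmeas.enorm.pow_const 2
  have hm2' : AEMeasurable (Function.uncurry fun y x => ‖ν x y‖ₑ ^ 2) (μ.prod μ) := by
    have := hm2.prod_swap
    exact this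
  have hsec : ∀ᵐ x ∂μ, AEStronglyMeasurable (fun y => ν x y) μ := hmeas.prodMk_left
  -- Parseval in the second variable
  have hpars : ∀ F : Set X, MeasurableSet F → ∀ᵐ x ∂μ,
      ∑' i, ‖∫ y, ν x y * F.indicator (b i) y ∂μ‖ₑ ^ 2 = ∫⁻ y in F, ‖ν x y‖ₑ ^ 2 ∂μ := by
    intro F hF
    filter_upwards [hsec, hsq] with x hx1 hx2
    have hL : MemLp (fun y => (starRingEnd ℂ) (ν x y)) 2 μ := by
      refine ⟨Complex.continuous_conj.comp_aestronglyMeasurable hx1, ?_⟩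
      rw [eLpNorm_eq_lintegral_rpow_enorm_toReal (by simp) (by simp)]
      refine ENNReal.rpow_lt_top_of_nonneg (by simp) ?_
      have : ∀ y, ‖(starRingEnd ℂ) (ν x y)‖ₑ ^ (ENNReal.toReal 2) = ‖ν x y‖ₑ ^ 2 := by
        intro y
        rw [← ofReal_norm, RCLike.norm_conj, ofReal_norm]
        norm_num
      simp only [this]
      exact hx2.ne
    set h : Lp ℂ 2 μ := cut hF (hL.toLp _) with hh
    have h1 : ∀ i, ⟪h, b i⟫_ℂ = ∫ y, ν x y * F.indicator (b i) y ∂μ := by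
      intro i
      rw [hh, inner_cut, L2.inner_def]
      apply integral_congr_ae
      filter_upwards [cut_coe hF (b i), hL.coeFn_toLp] with y e1 e2
      rw [e1, e2]
      simp [mul_comm]
    calc ∑' i, ‖∫ y, ν x y * F.indicator (b i) y ∂μ‖ₑ ^ 2
        = ∑' i, ‖⟪b i, h⟫_ℂ‖ₑ ^ 2 := by
          refine tsum_congr fun i => ?_
          rw [← h1 i, ← inner_conj_symm]
          rw [← ofReal_norm, RCLike.norm_conj, ofReal_norm]
      _ = ‖h‖ₑ ^ 2 := parseval b h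
      _ = ∫⁻ y, ‖h y‖ₑ ^ 2 ∂μ := enorm_sq_eq h
      _ = ∫⁻ y, F.indicator (fun y => ‖ν x y‖ₑ ^ 2) y ∂μ := by
          apply lintegral_congr_ae
          filter_upwards [cut_coe hF (hL.toLp _), hL.coeFn_toLp] with y e1 e2
          rw [hh, e1]
          by_cases hy : y ∈ F
          · simp only [Set.indicator_of_mem hy, e2]
            rw [← ofReal_norm, RCLike.norm_conj, ofReal_norm]
          · simp [Set.indicator_of_notMem hy]
      _ = ∫⁻ y in F, ‖ν x y‖ₑ ^ 2 ∂μ := lintegral_indicator hF _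
  -- the two Hilbert-Schmidt norms
  have hA : ∀ F : Set X, ∀ hF : MeasurableSet F,
      ∑' i, ‖N (cut hF (b i))‖ₑ ^ 2 = ∫⁻ y in F, ∫⁻ x, ‖ν x y‖ₑ ^ 2 ∂μ ∂μ := by
    intro F hF
    have hrep : ∀ i, ∀ᵐ x ∂μ, N (cut hF (b i)) x = ∫ y, ν x y * F.indicator (b i) y ∂μ := by
      intro i
      filter_upwards [hact (cut hF (b i))] with x hx
      rw [hx]
      apply integral_congr_ae
      filter_upwards [cut_coe hF (b i)] with y hy
      rw [hy]
    calc ∑' i, ‖N (cut hF (b i))‖ₑ ^ 2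
        = ∑' i, ∫⁻ x, ‖N (cut hF (b i)) x‖ₑ ^ 2 ∂μ := tsum_congr fun i => enorm_sq_eq _
      _ = ∫⁻ x, ∑' i, ‖N (cut hF (b i)) x‖ₑ ^ 2 ∂μ := by
          rw [lintegral_tsum]
          intro i
          exact ((Lp.stronglyMeasurable _).aestronglyMeasurable.enorm).pow_const 2
      _ = ∫⁻ x, ∫⁻ y in F, ‖ν x y‖ₑ ^ 2 ∂μ ∂μ := by
          apply lintegral_congr_ae
          filter_upwards [ae_all_iff.2 hrep, hpars F hF] with x h1 h2
          rw [← h2]
          exact tsum_congr fun i => by rw [h1 i]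
      _ = ∫⁻ y in F, ∫⁻ x, ‖ν x y‖ₑ ^ 2 ∂μ ∂μ := by
          rw [lintegral_lintegral_swap]
          refine hm2.mono_measure ?_
          exact Measure.prod_mono le_rfl Measure.restrict_le_self
  have hB : ∀ F : Set X, ∀ hF : MeasurableSet F,
      ∑' i, ‖cut hF (N (b i))‖ₑ ^ 2 = ∫⁻ x in F, ∫⁻ y, ‖ν x y‖ₑ ^ 2 ∂μ ∂μ := by
    intro F hF
    calc ∑' i, ‖cut hF (N (b i))‖ₑ ^ 2
        = ∑' i, ∫⁻ x in F, ‖N (b i) x‖ₑ ^ 2 ∂μ := by
          refine tsum_congr fun i => ?_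
          rw [enorm_sq_eq, ← lintegral_indicator hF]
          apply lintegral_congr_ae
          filter_upwards [cut_coe hF (N (b i))] with x hx
          rw [hx]
          by_cases h : x ∈ F <;> simp [Set.indicator, h]
      _ = ∫⁻ x in F, ∑' i, ‖N (b i) x‖ₑ ^ 2 ∂μ := by
          rw [lintegral_tsum]
          intro i
          exact (((Lp.stronglyMeasurable _).aestronglyMeasurable.enorm).pow_const 2).restrict
      _ = ∫⁻ x in F, ∫⁻ y, ‖ν x y‖ₑ ^ 2 ∂μ ∂μ := by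
          apply lintegral_congr_ae
          apply ae_restrict_of_ae
          have hp := hpars Set.univ MeasurableSet.univ
          filter_upwards [ae_all_iff.2 fun i => hact (b i), hp] with x h1 h2
          simp only [Set.indicator_univ, Measure.restrict_univ] at h2
          rw [← h2]
          exact tsum_congr fun i => by rw [h1 i]
  have hK1 : AEMeasurable (fun y => ∫⁻ x, ‖ν x y‖ₑ ^ 2 ∂μ) μ :=
    AEMeasurable.lintegral_prod_right' (f := fun p : X × X => ‖ν p.2 p.1‖ₑ ^ 2) hm2'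
  have hK2 : AEMeasurable (fun y => ∫⁻ x, ‖ν y x‖ₑ ^ 2 ∂μ) μ :=
    AEMeasurable.lintegral_prod_right' (f := fun p : X × X => ‖ν p.1 p.2‖ₑ ^ 2) hm2
  refine ae_eq_of_forall_setLIntegral_eq_of_sigmaFinite₀ hK1 hK2 ?_
  intro F hF _
  rw [← hA F hF, hs_symm N hn b hF, hB F hF]

end general

instance (a b : EReal) : SigmaFinite (lebI a b) := by unfold lebI; infer_instance

/-- There is no normal Carleman operator whose kernel fails to be square integrable in its first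
variable on a set of positive measure: for every normal Carleman operator on `L²(a,b)` with kernel
`ν`, for almost every `y` one has `∫ |ν(x,y)|² dx = ∫ |ν(y,x)|² dx < ∞`. -/
theorem result (a b : EReal) (_hab : a < b) (N : BOp (lebI a b)) (ν : ℝ → ℝ → ℂ)
    (hν : CarlemanKernel (lebI a b) ν) (hN : ActsBy (lebI a b) N ν) (hnormal : IsNormalOp N) :
    ∀ᵐ y ∂(lebI a b), sqInt (lebI a b) (fun x => ν x y) < ∞ ∧
      sqInt (lebI a b) (fun x => ν x y) = sqInt (lebI a b) (fun x => ν y x) := by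
  filter_upwards [transposed_kernel N ν hν.1 hν.2 hN hnormal, hν.2] with y h1 h2
  exact ⟨h1.trans_lt h2, h1⟩

end Pool.Agent.Results.MP_0ee9ff_an.NoSuchOperator
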